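import Pool.Agent.Lib.MP_3bda03_nt.B.Small
import Pool.Agent.Lib.MP_3bda03_nt.P.Final
import Pool.Agent.Lib.MP_3bda03_nt.T.Main

set_option autoImplicit false

namespace Pool.Agent.Results.MP_3bda03_nt.AllDim

open Pool.Agent.Eps Matrix

/-- In every dimension some lattice of covolume one has an Epstein zeta function without zeros on
the positive real axis. -/
theorem result : ∀ n : ℕ, 1 ≤ n →
      ∃ A : Matrix (Fin n) (Fin n) ℝ, |A.det| = 1 ∧
        ∃ F : ℂ → ℂ,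
          DifferentiableOn ℂ F {((n : ℂ) / 2)}ᶜ ∧
          (∀ s : ℂ, (n : ℝ) / 2 < s.re →
            HasSum (fun k : {k : Fin n → ℤ // k ≠ 0} =>
              (((∑ i, (∑ j, A i j * ((k.1 j : ℤ) : ℝ)) ^ 2 : ℝ) : ℂ)) ^ (-s)) (F s)) ∧
          (∀ x : ℝ, 0 < x → x ≠ (n : ℝ) / 2 → F (x : ℂ) ≠ 0) := by
  intro n hn
  have hG : H.Goal n := by
    rcases le_or_gt n 96 with h | h
    · exact B.goal_small hn h
    · exact T.goal_of_sieve h (P.sieve h)
  obtain ⟨A, hA, F, h1, h2, h3⟩ := hG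
  refine ⟨A, hA, F, h1, fun s hs => ?_, h3⟩
  rw [h2 s hs]
  refine Summable.hasSum (Summable.of_norm ?_)
  have hd : (Aᵀ).det ≠ 0 := by
    rw [Matrix.det_transpose]
    intro e
    rw [e] at hA
    simp at hA
  refine (H.ana_summable_rpow hd (σ := s.re) (by simpa using hs)).congr fun k => ?_
  have e : H.nsq (H.lv k.1 Aᵀ) = ∑ i, (∑ j, A i j * ((k.1 j : ℤ) : ℝ)) ^ 2 := by
    simp [H.nsq, H.lv, H.cv, Matrix.vecMul, dotProduct, mul_comm]
  rw [← e, Complex.norm_cpow_eq_rpow_re_of_pos (H.ana_pos hd k.2), Complex.neg_re]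

end Pool.Agent.Results.MP_3bda03_nt.AllDim
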